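import Pool.Agent.helper91.SI.Spec3

set_option autoImplicit false

namespace Pool.Agent.helper91.SI

open Pool.Agent.helper20.IG (IsIndepDom IsISet iGraph)

private lemma NM2_dec : ∀ j j' x y : ZMod 5, (y = x + 1 ∨ y = x + 4) → (x = j ∨ x = j + 2) →
    (∀ i, (i = j' ∨ i = j' + 2) ↔ (i = y ∨ (i ≠ x ∧ (i = j ∨ i = j + 2)))) →
    (j' = j + 3 ∧ x = j + 2 ∧ y = j + 3) ∨ (j' = j + 2 ∧ x = j ∧ y = j + 4) := by
  decide +kernel

private lemma NM2_dec1 : ∀ i j : ZMod 5, j = i ∨ j = i + 1 ∨ j = i + 4 ∨ j = i + 1 + 1 ∨ i = j + 1 + 1 := by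
  decide

private lemma NM2_dec2 : ∀ i j : ZMod 5, (j = i + 1 ∨ j = i + 4) → (i = j + 1 ∨ i = j + 4) := by
  decide

private lemma NM2_dec3 : ∀ i : ZMod 5, i + 3 ≠ i + 2 ∧ i + 3 + 4 = i + 2 ∧ i + 2 + 2 = i + 4 ∧ i + 2 + 3 = i := by
  decide

private lemma NM2_dec4 : ∀ t : ZMod 7, t + 1 + 1 ≠ t := by
  decide

theorem NM2 (hNMC : NMC_stmt) : NM2_stmt := by
  intro V _ G S s v q r r' a b ρ h3 h4 hMT hr hr'
  have hT := hNMC V G S s v q r r' a b ρ h3 h4 hMT
  obtain ⟨⟨hI, hSinj, hslide⟩, hq, hqa, hρ, hab, hρab, hsv, hsa, hva, hsb, hvb⟩ := hMT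
  obtain ⟨i0, hi0⟩ := hr
  obtain ⟨i1, hi1⟩ := hr'
  have hadj : G.Adj (q i0) (q i1) := by
    have h := (hslide a).2.2.1
    rwa [hsa, hva, ← hi0, ← hi1] at h
  have hcase : i1 = i0 + 1 ∨ i1 = i0 + 4 := by
    rcases NM2_dec1 i0 i1 with h | h | h | h | h
    · rw [h] at hadj
      exact absurd hadj (G.irrefl)
    · exact Or.inl h
    · exact Or.inr h
    · exact (h3 (q i0) (q (i0 + 1)) (q i1) (hqa i0) (by rw [h]; exact hqa (i0 + 1)) hadj).elim
    · exact (h3 (q i1) (q (i1 + 1)) (q i0) (hqa i1) (by rw [h]; exact hqa (i1 + 1)) hadj.symm).elim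
  have himg : (Finset.univ.image ρ) = (Finset.univ \ {a, b} : Finset (ZMod 7)) := by
    apply Finset.eq_of_subset_of_card_le
    · intro t ht
      obtain ⟨i, -, rfl⟩ := Finset.mem_image.1 ht
      simp [(hρab i).1, (hρab i).2]
    · rw [Finset.card_image_of_injective _ hρ, Finset.card_sdiff_of_subset (Finset.subset_univ _),
        Finset.card_pair hab, Finset.card_univ, Finset.card_univ, ZMod.card, ZMod.card]
  have hsurj : ∀ t, t ≠ a → t ≠ b → ∃ i, ρ i = t := by
    intro t hta htb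
    have ht : t ∈ Finset.univ.image ρ := by
      rw [himg]
      simp [hta, htb]
    obtain ⟨i, -, hi⟩ := Finset.mem_image.1 ht
    exact ⟨i, hi⟩
  have hstep : ∀ t, ∃ x y : ZMod 5, s t = q x ∧ v t = q y ∧ (y = x + 1 ∨ y = x + 4) := by
    intro t
    by_cases hta : t = a
    · subst hta
      exact ⟨i0, i1, by rw [hsa, hi0], by rw [hva, hi1], hcase⟩
    by_cases htb : t = b
    · subst htb
      exact ⟨i1, i0, by rw [hsb, hi1], by rw [hvb, hi0], NM2_dec2 _ _ hcase⟩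
    · obtain ⟨i, hi⟩ := hsurj t hta htb
      subst hi
      exact ⟨i, i + 1, (hsv i).1, (hsv i).2, Or.inl rfl⟩
  choose j hj using hT
  choose x y hx hy hxy using hstep
  have hkind : ∀ t, (j (t + 1) = j t + 3 ∧ x t = j t + 2 ∧ y t = j t + 3) ∨
      (j (t + 1) = j t + 2 ∧ x t = j t ∧ y t = j t + 4) := by
    intro t
    refine NM2_dec _ _ _ _ (hxy t) ?_ ?_
    · rw [← hj t (x t), ← hx t]
      exact (hslide t).1
    · intro i
      rw [← hj (t + 1) i, (hslide t).2.2.2, Finset.mem_insert, Finset.mem_erase, hx t, hy t, hq.eq_iff, ← hj t i,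
        hq.ne_iff]
  have hno : ∀ t, s (t + 1) = v t → v (t + 1) = s t → False := by
    intro t h1 h2
    have h5 : S (t + 1 + 1) = S t := by
      rw [(hslide (t + 1)).2.2.2, (hslide t).2.2.2, h1, h2, Finset.erase_insert, Finset.insert_erase (hslide t).1]
      intro h
      exact (hslide t).2.1 (Finset.mem_of_mem_erase h)
    exact NM2_dec4 t (hSinj h5)
  have hK1 : ∀ t, j (t + 1) = j t + 3 → j (t + 1 + 1) = j (t + 1) + 3 := by
    intro t h
    rcases hkind t with ⟨-, hx1, hy1⟩ | ⟨h', -, -⟩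
    · rcases hkind (t + 1) with ⟨h2, -, -⟩ | ⟨h2, hx2, hy2⟩
      · exact h2
      · exfalso
        refine hno t ?_ ?_
        · rw [hx, hy, hx2, hy1, h]
        · rw [hy, hx, hy2, hx1, h, (NM2_dec3 (j t)).2.1]
    · rw [h] at h'
      exact absurd h' (NM2_dec3 (j t)).1
  have hK2 : ∀ t, j (t + 1) = j t + 2 → j (t + 1 + 1) = j (t + 1) + 2 := by
    intro t h
    rcases hkind t with ⟨h', -, -⟩ | ⟨-, hx1, hy1⟩
    · rw [h] at h'
      exact absurd h'.symm (NM2_dec3 (j t)).1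
    · rcases hkind (t + 1) with ⟨h2, hx2, hy2⟩ | ⟨h2, -, -⟩
      · exfalso
        refine hno t ?_ ?_
        · rw [hx, hy, hx2, hy1, h, (NM2_dec3 (j t)).2.2.1]
        · rw [hy, hx, hy2, hx1, h, (NM2_dec3 (j t)).2.2.2]
      · exact h2
  have hfin : ∀ c : ZMod 5, (∀ t, j (t + 1) = j t + c → j (t + 1 + 1) = j (t + 1) + c) → j (0 + 1) = j 0 + c →
      c * 7 = 0 := by
    intro c hK h0
    have h1 : ∀ n : ℕ, j ((n : ZMod 7) + 1) = j (n : ZMod 7) + c := by
      intro n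
      induction n with
      | zero =>
        rw [Nat.cast_zero]
        exact h0
      | succ n ih =>
        rw [Nat.cast_succ]
        exact hK _ ih
    have h2 : ∀ n : ℕ, j (n : ZMod 7) = j 0 + c * n := by
      intro n
      induction n with
      | zero =>
        rw [Nat.cast_zero, Nat.cast_zero, mul_zero, add_zero]
      | succ n ih =>
        rw [Nat.cast_succ, h1 n, ih, Nat.cast_succ]
        ring
    have h7 := h2 7
    rw [show ((7 : ℕ) : ZMod 7) = 0 from by decide, show ((7 : ℕ) : ZMod 5) = 7 from by decide] at h7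
    exact left_eq_add.1 h7
  rcases hkind 0 with ⟨h, -, -⟩ | ⟨h, -, -⟩
  · have h5 := hfin 3 hK1 h
    revert h5
    decide
  · have h5 := hfin 2 hK2 h
    revert h5
    decide

end Pool.Agent.helper91.SI
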